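import Pool.Agent.Q5.AP.Par

/-!
# The means of `exp (i g)` for a function `g` with a mean square and Parseval's formula
-/

set_option autoImplicit false

open MeasureTheory Filter Topology Set Complex
open Pool.Agent.Q5.BP (exp_mean)

namespace Pool.Agent.Q5.AP

/-! ### trigonometric polynomials -/

/-- trigonometric polynomials -/
inductive TrigP : (ℝ → ℂ) → Prop
  | zero : TrigP fun _ => 0
  | add_exp (f : ℝ → ℂ) (c : ℂ) (l : ℝ) (h : TrigP f) : TrigP fun u => f u + c * exp (l * I * u)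

theorem TrigP.add {f g : ℝ → ℂ} (hf : TrigP f) (hg : TrigP g) : TrigP fun u => f u + g u := by
  induction hg with
  | zero => simpa using hf
  | add_exp g c l _ ih =>
    have h := TrigP.add_exp _ c l ih
    simpa only [add_assoc] using h

theorem TrigP.mul_exp {f : ℝ → ℂ} (hf : TrigP f) (c : ℂ) (l : ℝ) :
    TrigP fun u => f u * (c * exp (l * I * u)) := by
  induction hf with
  | zero => simpa using TrigP.zero
  | add_exp f d k _ ih =>
    have h := TrigP.add_exp _ (d * c) (k + l) ih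
    convert! h using 1
    funext u
    have e : exp (((k + l : ℝ) : ℂ) * I * u) = exp (k * I * u) * exp (l * I * u) := by
      rw [← Complex.exp_add]
      push_cast
      ring_nf
    rw [e]
    ring

theorem TrigP.mul {f g : ℝ → ℂ} (hf : TrigP f) (hg : TrigP g) : TrigP fun u => f u * g u := by
  induction hg with
  | zero => simpa using TrigP.zero
  | add_exp g c l _ ih =>
    have h := ih.add (hf.mul_exp c l)
    simpa only [mul_add] using h

theorem TrigP.const (c : ℂ) : TrigP fun _ => c := by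
  have h := TrigP.add_exp _ c 0 TrigP.zero
  simpa using h

theorem TrigP.pow {f : ℝ → ℂ} (hf : TrigP f) (n : ℕ) : TrigP fun u => f u ^ n := by
  induction n with
  | zero => simpa using TrigP.const 1
  | succ n ih =>
    have h := ih.mul hf
    simpa only [pow_succ] using h

theorem TrigP.cont {f : ℝ → ℂ} (hf : TrigP f) : Continuous f := by
  induction hf with
  | zero => exact continuous_const
  | add_exp f c l _ ih => exact ih.add (by fun_prop)

theorem TrigP.sum {ι : Type*} (s : Finset ι) {f : ι → ℝ → ℂ} (h : ∀ i ∈ s, TrigP (f i)) :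
    TrigP fun u => ∑ i ∈ s, f i u := by
  classical
  induction s using Finset.induction_on with
  | empty => simpa using TrigP.zero
  | insert a s ha ih =>
    have h1 := (h a (Finset.mem_insert_self a s)).add
      (ih fun i hi => h i (Finset.mem_insert_of_mem hi))
    simpa only [Finset.sum_insert ha] using h1

theorem TrigP.mean {f : ℝ → ℂ} (hf : TrigP f) : ∃ z : ℂ, Tendsto (M f) atTop (𝓝 z) := by
  induction hf with
  | zero =>
    refine ⟨0, ?_⟩
    unfold M
    simp
  | add_exp f c l hf ih =>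
    obtain ⟨z, hz⟩ := ih
    have h1 : ∃ z' : ℂ, Tendsto (M fun u => c * exp (l * I * u)) atTop (𝓝 z') := by
      by_cases hl : l = 0
      · refine ⟨c, ?_⟩
        refine tendsto_const_nhds.congr' ?_
        filter_upwards [eventually_gt_atTop 0] with T hT
        unfold M
        rw [hl]
        have hTc : (T : ℂ) ≠ 0 := by exact_mod_cast hT.ne'
        simp only [Complex.ofReal_zero, zero_mul, Complex.exp_zero, mul_one]
        rw [intervalIntegral.integral_const, sub_zero, Complex.real_smul]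
        field_simp
      · have h2 := (exp_mean hl).const_mul c
        rw [mul_zero] at h2
        refine ⟨0, h2.congr fun T => ?_⟩
        unfold M
        rw [intervalIntegral.integral_const_mul, mul_div_assoc]
    obtain ⟨z', hz'⟩ := h1
    refine ⟨z + z', (hz.add hz').congr fun T => ?_⟩
    rw [M_add (hf.cont.intervalIntegrable _ _) (Continuous.intervalIntegrable (by fun_prop) _ _)]

/-- functions which are approximated by functions with a mean have a mean -/
theorem mean_of_approx {f : ℝ → ℂ}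
    (h : ∀ ε : ℝ, 0 < ε → ∃ p : ℝ → ℂ, (∃ z : ℂ, Tendsto (M p) atTop (𝓝 z)) ∧
      ∀ᶠ T : ℝ in atTop, ‖M f T - M p T‖ ≤ ε) : ∃ z : ℂ, Tendsto (M f) atTop (𝓝 z) := by
  refine cauchySeq_tendsto_of_complete (Metric.cauchySeq_iff.2 fun ε hε => ?_)
  obtain ⟨p, ⟨z, hz⟩, hp⟩ := h (ε / 8) (by positivity)
  have h1 := Metric.tendsto_nhds.1 hz (ε / 8) (by positivity)
  obtain ⟨N, hN⟩ := eventually_atTop.1 (hp.and h1)
  refine ⟨N, fun m hm n hn => ?_⟩
  obtain ⟨a1, a2⟩ := hN m hm
  obtain ⟨b1, b2⟩ := hN n hn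
  have c1 : dist (M f m) (M p m) ≤ ε / 8 := by rw [dist_eq_norm]; exact a1
  have c2 : dist (M f n) (M p n) ≤ ε / 8 := by rw [dist_eq_norm]; exact b1
  have c3 := dist_triangle4 (M f m) (M p m) (M p n) (M f n)
  have c4 := dist_triangle_right (M p m) (M p n) z
  rw [dist_comm (M p n) (M f n)] at c3
  linarith

/-- a uniform approximation -/
theorem mean_sub_le {f p : ℝ → ℂ} {ε T : ℝ} (hT : 0 < T) (hf : IntervalIntegrable f volume 0 T)
    (hp : IntervalIntegrable p volume 0 T) (h : ∀ u : ℝ, ‖f u - p u‖ ≤ ε) : ‖M f T - M p T‖ ≤ ε := by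
  rw [← M_sub hf hp]
  unfold M
  rw [norm_div, Complex.norm_real, Real.norm_of_nonneg hT.le, div_le_iff₀ hT]
  have h1 := intervalIntegral.norm_integral_le_of_norm_le_const (a := 0) (b := T) (C := ε)
    (f := fun u => f u - p u) fun u _ => h u
  rwa [sub_zero, abs_of_pos hT] at h1

/-- the mean of `exp (i q)`, `q` a bounded trigonometric polynomial -/
theorem TrigP.exp_mean {q : ℝ → ℂ} (hq : TrigP q) {B : ℝ} (hB : ∀ u, ‖q u‖ ≤ B) :
    ∃ z : ℂ, Tendsto (M fun u => exp (q u * I)) atTop (𝓝 z) := by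
  refine mean_of_approx fun ε hε => ?_
  have hB0 : 0 ≤ B := (norm_nonneg _).trans (hB 0)
  -- the exponential series converges uniformly on discs
  obtain ⟨n, hn⟩ : ∃ n : ℕ, ∀ z : ℂ, ‖z‖ ≤ B →
      ‖exp z - ∑ k ∈ Finset.range n, z ^ k / (k.factorial : ℂ)‖ ≤ ε := by
    have hs : Summable fun k : ℕ => B ^ k / (k.factorial : ℝ) := Real.summable_pow_div_factorial B
    have ht := (hs.hasSum.tendsto_sum_nat).const_sub (∑' k : ℕ, B ^ k / (k.factorial : ℝ))
    rw [sub_self] at ht
    obtain ⟨n, hn⟩ := (ht.eventually (gt_mem_nhds hε)).exists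
    refine ⟨n, fun z hz => ?_⟩
    have h1 : HasSum (fun k : ℕ => z ^ k / (k.factorial : ℂ)) (exp z) := by
      rw [Complex.exp_eq_exp_ℂ]
      exact NormedSpace.expSeries_div_hasSum_exp z
    have h2 : exp z - ∑ k ∈ Finset.range n, z ^ k / (k.factorial : ℂ) =
        ∑' k : ℕ, z ^ (k + n) / ((k + n).factorial : ℂ) := by
      rw [← h1.tsum_eq, ← h1.summable.sum_add_tsum_nat_add n, add_sub_cancel_left]
    have h3 : (∑' k : ℕ, B ^ k / (k.factorial : ℝ)) - ∑ k ∈ Finset.range n, B ^ k / (k.factorial : ℝ) =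
        ∑' k : ℕ, B ^ (k + n) / ((k + n).factorial : ℝ) := by
      rw [← hs.sum_add_tsum_nat_add n, add_sub_cancel_left]
    rw [h2]
    have h4 : Summable fun k : ℕ => B ^ (k + n) / ((k + n).factorial : ℝ) :=
      (summable_nat_add_iff n).2 hs
    refine (tsum_of_norm_bounded h4.hasSum fun k => ?_).trans ?_
    · rw [norm_div, norm_pow, Complex.norm_natCast]
      gcongr
    · rw [← h3]
      exact hn.le
  refine ⟨fun u => ∑ k ∈ Finset.range n, (q u * I) ^ k / (k.factorial : ℂ), ?_, ?_⟩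
  · refine (TrigP.sum _ fun k _ => ?_).mean
    have h1 := (hq.mul (TrigP.const I)).pow k
    have h2 := h1.mul (TrigP.const ((k.factorial : ℂ))⁻¹)
    simpa only [div_eq_mul_inv] using h2
  · filter_upwards [eventually_gt_atTop 0] with T hT
    have hc := hq.cont
    refine mean_sub_le hT (Continuous.intervalIntegrable (by fun_prop) _ _)
      (Continuous.intervalIntegrable (by fun_prop) _ _) fun u => hn _ ?_
    rw [norm_mul, Complex.norm_I, mul_one]
    exact hB u

/-! ### real functions -/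

variable {g : ℝ → ℝ} {a : ℝ → ℂ} {V : ℝ}

/-- the real part of a partial sum -/
theorem tp_re (Z : Finset ℝ) (a : ℝ → ℂ) : TrigP fun u => (((Tp Z a u).re : ℝ) : ℂ) := by
  have e : (fun u : ℝ => (((Tp Z a u).re : ℝ) : ℂ)) = fun u : ℝ =>
      ∑ τ ∈ Z, ((a τ / 2) * exp (τ * I * u) + ((starRingEnd ℂ) (a τ) / 2) *
        exp (((-τ : ℝ) : ℂ) * I * u)) := by
    funext u
    rw [Complex.re_eq_add_conj]
    unfold Tp
    rw [map_sum, ← Finset.sum_add_distrib, Finset.sum_div]
    refine Finset.sum_congr rfl fun τ _ => ?_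
    rw [map_mul, ← Complex.exp_conj]
    have h2 : (starRingEnd ℂ) ((τ : ℂ) * I * u) = ((-τ : ℝ) : ℂ) * I * u := by simp
    rw [h2]
    ring
  rw [e]
  refine TrigP.sum _ fun τ _ => ?_
  have h1 := TrigP.add_exp _ (a τ / 2) τ TrigP.zero
  have h2 := TrigP.add_exp _ ((starRingEnd ℂ) (a τ) / 2) (-τ) h1
  simpa using h2

theorem tp_bound (Z : Finset ℝ) (a : ℝ → ℂ) (u : ℝ) : ‖Tp Z a u‖ ≤ ∑ τ ∈ Z, ‖a τ‖ := by
  unfold Tp
  refine (norm_sum_le _ _).trans (Finset.sum_le_sum fun τ _ => ?_)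
  rw [norm_mul, Complex.norm_exp]
  simp

theorem exp_sub_le (x y : ℝ) : ‖exp ((x : ℂ) * I) - exp ((y : ℂ) * I)‖ ≤ |x - y| := by
  have e : exp ((x : ℂ) * I) - exp ((y : ℂ) * I) =
      exp ((y : ℂ) * I) * (exp (I * ((x - y : ℝ) : ℂ)) - 1) := by
    rw [mul_sub, mul_one, ← Complex.exp_add]
    congr 2
    push_cast
    ring
  rw [e, norm_mul, Complex.norm_exp_ofReal_mul_I, one_mul]
  exact Real.norm_exp_I_mul_ofReal_sub_one_le

theorem exp_int (h : L2 fun u => (g u : ℂ)) {T : ℝ} (hT : 0 < T) :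
    IntervalIntegrable (fun u => exp ((g u : ℂ) * I)) volume 0 T := by
  rw [intervalIntegrable_iff_integrableOn_Ioc_of_le hT.le]
  have hm : AEStronglyMeasurable (fun u => exp ((g u : ℂ) * I)) (volume.restrict (Ioc 0 T)) := by
    have h1 : Continuous fun z : ℂ => exp (z * I) := by fun_prop
    exact h1.comp_aestronglyMeasurable (h T hT).aestronglyMeasurable
  refine Integrable.mono' (g := fun _ => (1 : ℝ)) (integrableOn_const (by simp)) hm
    (Eventually.of_forall fun u => ?_)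
  rw [Complex.norm_exp_ofReal_mul_I]

/-- the mean of the absolute value -/
theorem abs_mean_le {f : ℝ → ℂ} (hf : L2 f) {s T : ℝ} (hs : 0 < s) (hT : 0 < T) :
    MR (fun u => ‖f u‖) T ≤ (s * MR (fun u => ‖f u‖ ^ 2) T + s⁻¹) / 2 := by
  unfold MR
  have i1 := (hf.int hT).norm
  have i2 := hf.sq hT
  have h2 : ∫ u in (0 : ℝ)..T, ‖f u‖ ≤ ∫ u in (0 : ℝ)..T, (s * ‖f u‖ ^ 2 + s⁻¹) / 2 := by
    refine intervalIntegral.integral_mono_on hT.le i1
      (((i2.const_mul s).add intervalIntegrable_const).div_const 2) fun u _ => ?_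
    have h2 : 0 ≤ s⁻¹ * (s * ‖f u‖ - 1) ^ 2 := by positivity
    have h3 : s⁻¹ * (s * ‖f u‖ - 1) ^ 2 = s * ‖f u‖ ^ 2 + s⁻¹ - 2 * ‖f u‖ := by
      field_simp
      ring
    linarith
  rw [intervalIntegral.integral_div, intervalIntegral.integral_add (i2.const_mul s)
    intervalIntegrable_const, intervalIntegral.integral_const_mul,
    intervalIntegral.integral_const, smul_eq_mul, sub_zero] at h2
  rw [div_le_iff₀ hT]
  refine h2.trans (le_of_eq ?_)
  field_simp

/-- the difference of the means of two exponentials -/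
theorem exp_diff {f : ℝ → ℂ} (hg : L2 fun u => (g u : ℂ)) {q : ℝ → ℝ} (hq : L2 fun u => (q u : ℂ))
    (hf : L2 f) (hle : ∀ u, |g u - q u| ≤ ‖f u‖) {s T : ℝ} (hs : 0 < s) (hT : 0 < T) :
    ‖M (fun u => exp ((g u : ℂ) * I)) T - M (fun u => exp ((q u : ℂ) * I)) T‖ ≤
      (s * MR (fun u => ‖f u‖ ^ 2) T + s⁻¹) / 2 := by
  refine le_trans ?_ (abs_mean_le hf hs hT)
  rw [← M_sub (exp_int hg hT) (exp_int hq hT)]
  unfold M MR
  rw [norm_div, Complex.norm_real, Real.norm_of_nonneg hT.le]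
  refine div_le_div_of_nonneg_right ?_ hT.le
  refine (intervalIntegral.norm_integral_le_integral_norm hT.le).trans ?_
  refine intervalIntegral.integral_mono_on hT.le ((exp_int hg hT).sub (exp_int hq hT)).norm
    (hf.int hT).norm fun u _ => ?_
  exact (exp_sub_le _ _).trans (hle u)

/-- **The means of `exp (i g)` converge.** -/
theorem Par.exp_mean (h : Par (fun u => (g u : ℂ)) a V) :
    ∃ z : ℂ, Tendsto (M fun u => exp ((g u : ℂ) * I)) atTop (𝓝 z) := by
  refine mean_of_approx fun ε hε => ?_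
  set s : ℝ := 2 / ε with hs
  have hs0 : 0 < s := by positivity
  obtain ⟨Z, hZ⟩ := (h.pa.eventually (Metric.ball_mem_nhds V (show 0 < ε ^ 2 / 4 by positivity))).exists
  have hZ2 : V - ∑ t ∈ Z, ‖a t‖ ^ 2 < ε ^ 2 / 4 := by
    have h3 : dist (∑ t ∈ Z, ‖a t‖ ^ 2) V < ε ^ 2 / 4 := hZ
    rw [Real.dist_eq, abs_lt] at h3
    linarith [h3.1]
  refine ⟨fun u => exp ((((Tp Z a u).re : ℝ) : ℂ) * I), (tp_re Z a).exp_mean
    (B := ∑ τ ∈ Z, ‖a τ‖) (fun u => ?_), ?_⟩
  · rw [Complex.norm_real, Real.norm_eq_abs]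
    exact (Complex.abs_re_le_norm _).trans (tp_bound Z a u)
  · filter_upwards [(h.err Z).eventually (gt_mem_nhds hZ2), eventually_gt_atTop 0] with T k1 hT
    have hq : L2 fun u => (((Tp Z a u).re : ℝ) : ℂ) := l2_cont (tp_re Z a).cont
    refine (exp_diff h.loc hq (h.loc.sub (tp_l2 Z a)) (fun u => ?_) hs0 hT).trans ?_
    · have e : g u - (Tp Z a u).re = ((g u : ℂ) - Tp Z a u).re := by simp
      rw [e]
      exact Complex.abs_re_le_norm _
    · have k2 : s * MR (fun u => ‖(g u : ℂ) - Tp Z a u‖ ^ 2) T ≤ s * (ε ^ 2 / 4) :=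
        mul_le_mul_of_nonneg_left k1.le hs0.le
      have k3 : s * (ε ^ 2 / 4) = ε / 2 := by rw [hs]; field_simp; ring
      have k4 : s⁻¹ = ε / 2 := by rw [hs, inv_div]
      rw [k4]
      linarith

/-- the mean of `exp (i g)` is near `1` -/
theorem Par.exp_near (h : Par (fun u => (g u : ℂ)) a V) {z : ℂ}
    (hz : Tendsto (M fun u => exp ((g u : ℂ) * I)) atTop (𝓝 z)) {s : ℝ} (hs : 0 < s) :
    ‖z - 1‖ ≤ (s * V + s⁻¹) / 2 := by
  have h1 : Tendsto (fun T => ‖M (fun u => exp ((g u : ℂ) * I)) T - 1‖) atTop (𝓝 ‖z - 1‖) :=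
    (hz.sub_const 1).norm
  have h2 : Tendsto (fun T => (s * MR (fun u => ‖(g u : ℂ)‖ ^ 2) T + s⁻¹) / 2) atTop
      (𝓝 ((s * V + s⁻¹) / 2)) := ((h.ms.const_mul s).add_const _).div_const 2
  refine le_of_tendsto_of_tendsto h1 h2 ?_
  filter_upwards [eventually_gt_atTop 0] with T hT
  have h0 : L2 fun _ : ℝ => ((0 : ℝ) : ℂ) := l2_cont continuous_const
  have h3 := exp_diff (q := fun _ => 0) h.loc h0 h.loc (fun u => by
    rw [sub_zero, Complex.norm_real, Real.norm_eq_abs]) hs hT
  have e : M (fun _ : ℝ => exp (((0 : ℝ) : ℂ) * I)) T = 1 := by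
    unfold M
    have hTc : (T : ℂ) ≠ 0 := by exact_mod_cast hT.ne'
    simp only [Complex.ofReal_zero, zero_mul, Complex.exp_zero]
    rw [intervalIntegral.integral_const, sub_zero, Complex.real_smul, mul_one, div_self hTc]
  rw [e] at h3
  exact h3

end Pool.Agent.Q5.AP
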