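import Pool.Agent.Q5.AP.Bridge
import Pool.Agent.Q5.AP.WinQ

/-!
# The error terms for elliptic curves over `ℚ`, in the form of `Par`
-/

set_option autoImplicit false

open MeasureTheory Filter Topology Set Complex
open Pool.Agent.TH270.MS (BM)
open Pool.Agent.TH270.MS.EQ (nQ alQ curve_mc growth_F)
open Pool.Agent.Q5.BP (MSq FB bm_log bm_dvP DvP)
open Pool.Agent.W263.BSD (IsLSeries)
open Pool.Agent.Results.MP_92892c_nt.ExactMeanSquareRational (squares mult devStar dev LeadingRH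
  BoundedMeanSquare meanSquare coefficient SquareLaw ReadsZeros bm_devStar dev_eq)
open Pool.Agent.Results.MP_8b7eba_nt.OneWindow (hecke NoZeros)
open Pool.Agent.Results.MP_4a9ea6_nt.SimpleZeros (IsFormOf IsCompleted RH Simple ord cE Formula)
open CongruenceSubgroup
open scoped MatrixGroups Classical

namespace Pool.Agent.Q5.AP

/-- the error terms considered: with the second order terms, or the original one if the theorem of Rankin and
Selberg holds with a rate -/
def IsErr (a b : ℤ) (ρ A : ℝ) (δ : ℝ → ℝ) : Prop :=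
  δ = devStar a b ρ A ∨
    (Tendsto (fun x : ℝ => Real.log x * (squares a b x + Real.log 2 / 2)) atTop (𝓝 0) ∧
      δ = dev a b ρ A)

variable {a b : ℤ} {N : ℕ} [NeZero N] {f : CuspForm (Gamma0 N : Subgroup (GL (Fin 2) ℝ)) 2} {w : ℝ}
  {F : ℂ → ℂ}

/-- everything about the error terms of one curve -/
theorem errQ (hΔ : 4 * a ^ 3 + 27 * b ^ 2 ≠ 0) (hF : IsLSeries a b F) (hf : IsFormOf a b N f w) :
    ∃ Λ : ℂ → ℂ, IsCompleted f Λ ∧ (∀ Λ', IsCompleted f Λ' → Λ' = Λ) ∧
      (∀ s : ℂ, Λ (2 - s) = (w : ℂ) * Λ s) ∧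
      (∀ z : ℂ, 1 ≤ z.re → analyticOrderAt F z = analyticOrderAt Λ z) ∧
      (RH Λ → ∃ t : ℝ, t ≠ 0 ∧ Λ (1 + t * I) = 0) ∧
      ∀ (ρ A : ℝ) (δ : ℝ → ℝ), 0 < A → IsErr a b ρ A δ →
        BM (fun x => Real.log x * δ x) ∧ (RH Λ ∧ Formula F ρ A ↔ BoundedMeanSquare δ) ∧
        (RH Λ ∧ Formula F ρ A → ∃ V : ℝ, HasSum (fun t : ℝ => ((mult Λ t : ℝ) / t) ^ 2) V ∧
          Par (fun u => (cut (fun x => Real.log x * δ x) u : ℂ)) (cm (mult Λ)) V) := by
  obtain ⟨Λ, hΛ, huniq, hfe, hlink, -, hRH, hmult, hsum, hpos, -⟩ := central hΔ hF hf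
  obtain ⟨C₀, κ, hg⟩ := growth_F hΔ hF (hecke hf.form) fun p hp => hf.form.points p hp
  have H := curve_mc hF (by norm_num : (0 : ℝ) < 1 / 8) hg
  refine ⟨Λ, hΛ, huniq, hfe, hlink, fun hR => ?_, fun ρ A δ hA hδ => ?_⟩
  · by_contra hno
    push Not at hno
    have h1 : ∀ t : ℝ, (mult Λ t : ℝ) / t ^ 2 = 0 := by
      intro t
      by_cases ht : t = 0
      · rw [ht]
        simp
      · have : mult Λ t = 0 := by
          unfold mult
          rw [((hΛ.1.analyticAt _).analyticOrderAt_eq_zero).2 (hno t ht)]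
          rfl
        rw [this]
        simp
    have h2 := hsum hR
    simp only [h1] at h2
    have h3 := h2.unique hasSum_zero
    have h4 := hpos hR
    linarith
  · have hmm : mult F = mult Λ := funext hmult
    have hP : LeadingRH F ρ A ↔ RH Λ ∧ Formula F ρ A := by
      unfold LeadingRH Formula
      rw [hRH]
    obtain ⟨⟨t1, r1⟩, t2⟩ := Pool.Agent.Results.MP_92892c_nt.ExactMeanSquareRational.result a b hΔ F hF N f
      hf.form ρ A hA
    have key : BM (fun x => Real.log x * δ x) → List.TFAE [LeadingRH F ρ A, BoundedMeanSquare δ,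
        SquareLaw F δ] → (LeadingRH F ρ A → ReadsZeros F δ) →
        BM (fun x => Real.log x * δ x) ∧ (RH Λ ∧ Formula F ρ A ↔ BoundedMeanSquare δ) ∧
        (RH Λ ∧ Formula F ρ A → ∃ V : ℝ, HasSum (fun t : ℝ => ((mult Λ t : ℝ) / t) ^ 2) V ∧
          Par (fun u => (cut (fun x => Real.log x * δ x) u : ℂ)) (cm (mult Λ)) V) := by
      intro hW t r
      refine ⟨hW, by rw [← hP]; exact t.out 0 1, fun h => ?_⟩
      have h1 := hP.2 h
      have h2 : SquareLaw F δ := (t.out 0 2).1 h1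
      have h3 := r h1
      unfold SquareLaw at h2
      unfold ReadsZeros at h3
      rw [hmm] at h2 h3
      exact par_of_cm hW h2 h3
    rcases hδ with rfl | ⟨hc, rfl⟩
    · exact key (bm_log.mul (bm_devStar a b hA)) t1 r1
    · obtain ⟨t3, r3⟩ := t2 hc
      refine key ?_ t3 r3
      have e : ∀ y : ℝ, Real.exp 1 ≤ y → dev a b ρ A y = DvP (nQ a b) (alQ a b) ρ A (-(Real.log 2 / 2)) y :=
        fun y hy => dev_eq hA hy
      exact Pool.Agent.Q5.OM.bm_congr (bm_log.mul (bm_dvP H ρ A (-(Real.log 2 / 2)))) fun y hy => by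
        rw [e y hy]

end Pool.Agent.Q5.AP
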