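import Pool.Agent.Q5.AP.Dist
import Pool.Agent.Q5.AP.Two

/-!
# The joint limiting distribution of several functions
-/

set_option autoImplicit false

open MeasureTheory Filter Topology Set Complex
open Pool.Agent.TH270.MS (BM)
open Pool.Agent.Q5.OM (mn mn_cov)

namespace Pool.Agent.Q5.AP

theorem par_zero : Par (fun _ => 0) (fun _ => 0) 0 where
  loc := l2_cont continuous_const
  ms := by
    unfold MR
    simp
  co t := by
    unfold M
    simp
  pa := by simpa using hasSum_zero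

variable {ι : Type} [Fintype ι] {g : ι → ℝ → ℝ} {a : ι → ℝ → ℂ} {V : ι → ℝ}

/-- linear combinations -/
theorem par_lin (h : ∀ i, Par (fun u => (g i u : ℂ)) (a i) (V i)) (ξ : ι → ℝ) (s : Finset ι) :
    ∃ (b : ℝ → ℂ) (U : ℝ), Par (fun u => ((∑ i ∈ s, ξ i * g i u : ℝ) : ℂ)) b U := by
  classical
  induction s using Finset.induction_on with
  | empty => exact ⟨_, _, by simpa only [Finset.sum_empty, Complex.ofReal_zero] using par_zero⟩
  | insert i s hi ih =>
    obtain ⟨b, U, hP⟩ := ih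
    have h1 := ((h i).smul_real (ξ i)).add hP
    exact ⟨_, _, by simpa only [Finset.sum_insert hi, Complex.ofReal_add] using h1⟩

/-- the mean square of a linear combination -/
theorem lin_bound (h : ∀ i, Par (fun u => (g i u : ℂ)) (a i) (V i)) (ξ : ι → ℝ) {b : ℝ → ℂ} {U : ℝ}
    (hP : Par (fun u => ((∑ i, ξ i * g i u : ℝ) : ℂ)) b U) : U ≤ (∑ i, ξ i ^ 2) * ∑ i, V i := by
  have h1 := hP.ms
  have h2 : Tendsto (fun T => (∑ i, ξ i ^ 2) * ∑ i, MR (fun u => ‖(g i u : ℂ)‖ ^ 2) T) atTop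
      (𝓝 ((∑ i, ξ i ^ 2) * ∑ i, V i)) :=
    (tendsto_finsetSum _ fun i _ => (h i).ms).const_mul _
  refine le_of_tendsto_of_tendsto h1 h2 ?_
  filter_upwards [eventually_gt_atTop 0] with T hT
  unfold MR
  rw [← Finset.sum_div, ← mul_div_assoc]
  refine div_le_div_of_nonneg_right ?_ hT.le
  rw [← intervalIntegral.integral_finsetSum fun i _ => (h i).loc.sq hT,
    ← intervalIntegral.integral_const_mul]
  have i2 : IntervalIntegrable (fun u => ∑ i, ‖(g i u : ℂ)‖ ^ 2) volume 0 T := by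
    have := IntervalIntegrable.sum (f := fun i : ι => fun u => ‖(g i u : ℂ)‖ ^ 2) (μ := volume) (a := 0) (b := T)
      Finset.univ fun i _ => (h i).loc.sq hT
    convert! this using 1
    funext u
    rw [Finset.sum_apply]
  refine intervalIntegral.integral_mono_on hT.le (hP.loc.sq hT) (i2.const_mul _) fun u _ => ?_
  simp only [Complex.norm_real, Real.norm_eq_abs, sq_abs]
  exact Finset.sum_mul_sq_le_sq_mul_sq _ _ _

/-- the vector -/
noncomputable def vec (g : ι → ℝ → ℝ) (u : ℝ) : EuclideanSpace ℝ ι := WithLp.toLp 2 fun i => g i u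

omit [Fintype ι] in
theorem vec_meas (hg : ∀ i, Measurable (g i)) : Measurable (vec g) :=
  (WithLp.measurable_toLp 2 (ι → ℝ)).comp (measurable_pi_lambda _ hg)

theorem inner_vec (ξ : EuclideanSpace ℝ ι) (u : ℝ) :
    inner ℝ (vec g u) ξ = ∑ i, ξ i * g i u := by
  rw [PiLp.inner_apply]
  refine Finset.sum_congr rfl fun i _ => ?_
  simp [vec]

theorem charFun_vec (hg : ∀ i, Measurable (g i)) (ξ : EuclideanSpace ℝ ι) {T : ℝ} (hT : 0 < T) :
    charFun (law (vec g) T) ξ = M (fun u => exp (((∑ i, ξ i * g i u : ℝ) : ℂ) * I)) T := by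
  have hφ : Continuous fun x : EuclideanSpace ℝ ι => exp (((inner ℝ x ξ : ℝ) : ℂ) * I) := by fun_prop
  rw [charFun_apply, law_integral (vec_meas hg) hφ.stronglyMeasurable hT]
  unfold M
  simp only [inner_vec]
  rw [Complex.real_smul]
  push_cast
  ring

/-- **The joint limiting distribution exists.** -/
theorem joint_exists (h : ∀ i, Par (fun u => (g i u : ℂ)) (a i) (V i)) (hg : ∀ i, Measurable (g i)) :
    ∃ ν : ProbabilityMeasure (EuclideanSpace ℝ ι), Tendsto (lawP (vec_meas hg)) atTop (𝓝 ν) := by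
  have h0 : ∀ ξ : EuclideanSpace ℝ ι, ∃ (b : ℝ → ℂ) (U : ℝ),
      Par (fun u => ((∑ i, ξ i * g i u : ℝ) : ℂ)) b U := fun ξ => par_lin h (fun i => ξ i) Finset.univ
  have h1 : ∀ ξ : EuclideanSpace ℝ ι, ∃ z : ℂ,
      Tendsto (M fun u => exp (((∑ i, ξ i * g i u : ℝ) : ℂ) * I)) atTop (𝓝 z) := by
    intro ξ
    obtain ⟨b, U, hP⟩ := h0 ξ
    exact hP.exp_mean
  choose Φ hΦ using h1
  have hlim : ∀ ξ, Tendsto (fun T : ℝ => charFun (law (vec g) T) ξ) atTop (𝓝 (Φ ξ)) := by
    intro ξ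
    refine (hΦ ξ).congr' ?_
    filter_upwards [eventually_gt_atTop 0] with T hT
    exact (charFun_vec hg ξ hT).symm
  set K : ℝ := ∑ i, V i with hK
  have hnear : ∀ ξ : EuclideanSpace ℝ ι, ξ ≠ 0 → ‖Φ ξ - 1‖ ≤ ‖ξ‖ * ((K + 1) / 2) := by
    intro ξ hξ
    obtain ⟨b, U, hP⟩ := h0 ξ
    have hx : 0 < ‖ξ‖ := norm_pos_iff.2 hξ
    have hU : U ≤ ‖ξ‖ ^ 2 * K := by
      have h2 := lin_bound h (fun i => ξ i) hP
      rw [EuclideanSpace.norm_eq, Real.sq_sqrt (Finset.sum_nonneg fun i _ => by positivity)]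
      simpa only [Real.norm_eq_abs, sq_abs] using h2
    refine (hP.exp_near (hΦ ξ) (s := ‖ξ‖⁻¹) (by positivity)).trans ?_
    rw [inv_inv]
    have h3 : ‖ξ‖⁻¹ * U ≤ ‖ξ‖ * K := by
      rw [inv_mul_le_iff₀ hx]
      nlinarith
    linarith
  have hone : Φ 0 = 1 := by
    have h2 := hΦ 0
    refine tendsto_nhds_unique h2 (tendsto_const_nhds.congr' ?_)
    filter_upwards [eventually_gt_atTop 0] with T hT
    unfold M
    have hTc : (T : ℂ) ≠ 0 := by exact_mod_cast hT.ne'
    simp only [PiLp.zero_apply, zero_mul, Finset.sum_const_zero, Complex.ofReal_zero, Complex.exp_zero]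
    rw [intervalIntegral.integral_const, sub_zero, Complex.real_smul, mul_one, div_self hTc]
  have hc : ContinuousAt Φ 0 := by
    rw [ContinuousAt, hone, tendsto_iff_norm_sub_tendsto_zero]
    have h3 : Tendsto (fun ξ : EuclideanSpace ℝ ι => ‖ξ‖ * ((K + 1) / 2)) (𝓝 0) (𝓝 0) := by
      have : Continuous fun ξ : EuclideanSpace ℝ ι => ‖ξ‖ * ((K + 1) / 2) := by fun_prop
      simpa using this.tendsto 0
    refine squeeze_zero (fun ξ => norm_nonneg _) (fun ξ => ?_) h3
    by_cases hξ : ξ = 0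
    · rw [hξ, hone]
      simp
    · exact hnear ξ hξ
  obtain ⟨ν, -, hν⟩ := law_tendsto (vec_meas hg) hc hlim
  exact ⟨ν, hν⟩

/-- bounded continuous test functions -/
theorem joint_test (hg : ∀ i, Measurable (g i)) {ν : ProbabilityMeasure (EuclideanSpace ℝ ι)}
    (hν : Tendsto (lawP (vec_meas hg)) atTop (𝓝 ν)) {φ : (ι → ℝ) → ℝ} (hφ : Continuous φ) {B : ℝ}
    (hB : ∀ x, |φ x| ≤ B) : Tendsto (MR fun u => φ fun i => g i u) atTop
      (𝓝 (∫ y, φ y ∂((ν : Measure (EuclideanSpace ℝ ι)).map WithLp.ofLp))) := by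
  have hc : Continuous fun x : EuclideanSpace ℝ ι => φ x.ofLp :=
    hφ.comp (PiLp.continuous_ofLp 2 fun _ : ι => ℝ)
  have h1 := (ProbabilityMeasure.tendsto_iff_forall_integral_tendsto.1 hν)
    (BoundedContinuousFunction.ofNormedAddCommGroup (fun x : EuclideanSpace ℝ ι => φ x.ofLp) hc B
      fun x => hB _)
  have e : ∫ y, φ y ∂((ν : Measure (EuclideanSpace ℝ ι)).map WithLp.ofLp) =
      ∫ x : EuclideanSpace ℝ ι, φ x.ofLp ∂(ν : Measure (EuclideanSpace ℝ ι)) :=
    integral_map (PiLp.continuous_ofLp 2 fun _ : ι => ℝ).measurable.aemeasurable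
      hφ.aestronglyMeasurable
  rw [e]
  refine h1.congr' ?_
  filter_upwards [eventually_gt_atTop 0] with T hT
  have h2 := law_integral (vec_meas hg) (φ := fun x : EuclideanSpace ℝ ι => φ x.ofLp)
    hc.stronglyMeasurable hT
  show ∫ x, φ x.ofLp ∂(law (vec g) T) = _
  rw [h2]
  unfold MR vec
  rw [smul_eq_mul]
  ring

/-- images under continuous functions -/
theorem joint_image (hg : ∀ i, Measurable (g i)) {ν : ProbabilityMeasure (EuclideanSpace ℝ ι)}
    (hν : Tendsto (lawP (vec_meas hg)) atTop (𝓝 ν)) {ℓ : (ι → ℝ) → ℝ} (hℓ : Continuous ℓ)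
    (hm : Measurable fun u => ℓ fun i => g i u) :
    ∃ μ : ProbabilityMeasure ℝ, Tendsto (lawP hm) atTop (𝓝 μ) ∧
      (μ : Measure ℝ) = ((ν : Measure (EuclideanSpace ℝ ι)).map WithLp.ofLp).map ℓ := by
  have hc : Continuous fun x : EuclideanSpace ℝ ι => ℓ x.ofLp :=
    hℓ.comp (PiLp.continuous_ofLp 2 fun _ : ι => ℝ)
  refine ⟨ν.map hc.measurable.aemeasurable, ?_, ?_⟩
  · have h1 := ProbabilityMeasure.tendsto_map_of_tendsto_of_continuous (lawP (vec_meas hg)) ν hν hc
    refine h1.congr fun T => ?_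
    apply Subtype.ext
    show Measure.map (fun x : EuclideanSpace ℝ ι => ℓ x.ofLp) (law (vec g) T) =
      law (fun u => ℓ fun i => g i u) T
    unfold law
    have hmv : Measurable fun x : ℝ => vec g (T * x) := (vec_meas hg).comp (measurable_const_mul T)
    rw [Measure.map_map hc.measurable hmv]
    rfl
  · rw [ProbabilityMeasure.toMeasure_map, Measure.map_map hℓ.measurable
      (PiLp.continuous_ofLp 2 fun _ : ι => ℝ).measurable]
    rfl

/-! ### the moments -/

/-- a joint limiting distribution of the functions `g i`, with its moments -/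
theorem joint_moments (h : ∀ i, Par (fun u => (g i u : ℂ)) (a i) (V i)) (hg : ∀ i, Measurable (g i)) :
    ∃ ν : Measure (ι → ℝ), IsProbabilityMeasure ν ∧
      (∀ φ : (ι → ℝ) → ℝ, Continuous φ → (∃ B : ℝ, ∀ y, |φ y| ≤ B) →
        Tendsto (MR fun u => φ fun i => g i u) atTop (𝓝 (∫ y, φ y ∂ν))) ∧
      (∀ i, Integrable (fun y : ι → ℝ => y i ^ 2) ν) ∧ (∀ i, ∫ y, y i ∂ν = (a i 0).re) ∧
      ∀ i j, ∫ y, y i * y j ∂ν = (∑' t, a i t * (starRingEnd ℂ) (a j t)).re := by
  obtain ⟨ν, hν⟩ := joint_exists h hg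
  have hmap : Measurable (WithLp.ofLp : EuclideanSpace ℝ ι → (ι → ℝ)) :=
    (PiLp.continuous_ofLp 2 fun _ : ι => ℝ).measurable
  set μ : Measure (ι → ℝ) := (ν : Measure (EuclideanSpace ℝ ι)).map WithLp.ofLp with hμ
  have hprob : IsProbabilityMeasure μ := Measure.isProbabilityMeasure_map hmap.aemeasurable
  -- the second and the first moment of a linear functional
  have key : ∀ (ℓ : (ι → ℝ) → ℝ), Continuous ℓ → ∀ (b : ℝ → ℂ) (U : ℝ),
      Par (fun u => ((ℓ fun i => g i u : ℝ) : ℂ)) b U →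
      Integrable (fun y => ℓ y ^ 2) μ ∧ ∫ y, ℓ y ^ 2 ∂μ = U ∧ ∫ y, ℓ y ∂μ = (b 0).re := by
    intro ℓ hℓ b U hP
    have hm : Measurable fun u => ℓ fun i => g i u := hℓ.measurable.comp (measurable_pi_lambda _ hg)
    obtain ⟨κ, hκ, he⟩ := joint_image hg hν hℓ hm
    obtain ⟨h1, h2⟩ := hP.second hm hκ
    have h3 := hP.first hm hκ
    rw [he] at h1 h2 h3
    have h2m : AEStronglyMeasurable (fun x : ℝ => x ^ 2) (μ.map ℓ) :=
      (continuous_pow 2).aestronglyMeasurable
    rw [integral_map hℓ.measurable.aemeasurable h2m] at h2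
    have h3m : AEStronglyMeasurable (fun x : ℝ => x) (μ.map ℓ) := continuous_id.aestronglyMeasurable
    rw [integral_map hℓ.measurable.aemeasurable h3m] at h3
    exact ⟨(integrable_map_measure h2m hℓ.measurable.aemeasurable).1 h1, h2, h3⟩
  have k1 : ∀ i, Integrable (fun y : ι → ℝ => y i ^ 2) μ ∧ ∫ y, y i ^ 2 ∂μ = V i ∧
      ∫ y, y i ∂μ = (a i 0).re := fun i => key (fun y => y i) (continuous_apply i) (a i) (V i) (h i)
  refine ⟨μ, hprob, ?_, fun i => (k1 i).1, fun i => (k1 i).2.2, fun i j => ?_⟩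
  · rintro φ hφ ⟨B, hB⟩
    exact joint_test hg hν hφ hB
  · have hP : Par (fun u => ((g i u + g j u : ℝ) : ℂ)) (fun t => a i t + a j t)
        (V i + V j + 2 * (∑' t, a i t * (starRingEnd ℂ) (a j t)).re) := by
      have h1 := (h i).add (h j)
      simpa only [Complex.ofReal_add] using h1
    obtain ⟨h1, h2, -⟩ := key (fun y => y i + y j) ((continuous_apply i).add (continuous_apply j)) _ _ hP
    have e : ∀ y : ι → ℝ, y i * y j = ((y i + y j) ^ 2 - y i ^ 2 - y j ^ 2) / 2 := by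
      intro y
      ring
    simp only [e]
    have i1 : Integrable (fun y : ι → ℝ => (y i + y j) ^ 2 - y i ^ 2) μ := h1.sub (k1 i).1
    rw [integral_div, integral_sub i1 (k1 j).1, integral_sub h1 (k1 i).1, h2,
      (k1 i).2.1, (k1 j).2.1]
    ring

/-- bounded functions of several `W` -/
theorem joint_means {W : ι → ℝ → ℝ} (hW : ∀ i, BM (W i)) {φ : (ι → ℝ) → ℝ} (hφ : Continuous φ) {B : ℝ}
    (hB : ∀ x, |φ x| ≤ B) {L : ℝ} (h : Tendsto (MR fun u => φ fun i => cut (W i) u) atTop (𝓝 L)) :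
    Tendsto (fun X : ℝ => (∫ x in Real.exp 1..X, φ (fun i => W i x) / x) / Real.log X) atTop (𝓝 L) := by
  have hint : ∀ T : ℝ, 0 < T → IntervalIntegrable (fun u => φ fun i => cut (W i) u) volume 0 T := by
    intro T hT
    rw [intervalIntegrable_iff_integrableOn_Ioc_of_le hT.le]
    have hm : AEStronglyMeasurable (fun u => φ fun i => cut (W i) u) volume :=
      (hφ.measurable.comp_aemeasurable (aemeasurable_pi_lambda _
        fun i => (cut_meas (hW i)).aemeasurable)).aestronglyMeasurable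
    exact Integrable.mono' (g := fun _ => B) (integrableOn_const (by simp)) hm.restrict
      (Eventually.of_forall fun u => hB _)
  unfold MR at h
  rw [Pool.Agent.Q5.BP.mean_from_one_real hint] at h
  have h6 := h.comp Real.tendsto_log_atTop
  refine h6.congr' ?_
  filter_upwards [eventually_ge_atTop (Real.exp 1)] with X hX
  have hX0 : 0 < X := (Real.exp_pos 1).trans_le hX
  have hl : 1 ≤ Real.log X := Pool.Agent.TH270.MS.one_le_log hX
  have e := mn_cov (fun y => φ fun i => W i y) hl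
  rw [Real.exp_log hX0] at e
  rw [e, Function.comp_apply]
  unfold mn
  congr 1
  refine intervalIntegral.integral_congr_ae (Eventually.of_forall fun u hu => ?_)
  rw [uIoc_of_le hl] at hu
  congr 1
  funext i
  rw [cut_of _ hu.1]

/-- `ν` is the joint limiting logarithmic distribution of the functions `W i`. -/
def IsJointLaw (W : ι → ℝ → ℝ) (ν : Measure (ι → ℝ)) : Prop :=
  IsProbabilityMeasure ν ∧ ∀ φ : (ι → ℝ) → ℝ, Continuous φ → (∃ B : ℝ, ∀ y, |φ y| ≤ B) →
    Tendsto (fun X : ℝ => (∫ x in Real.exp 1..X, φ (fun i => W i x) / x) / Real.log X) atTop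
      (𝓝 (∫ y, φ y ∂ν))

omit [Fintype ι] in
theorem joint_unique [Finite ι] {W : ι → ℝ → ℝ} {ν ν' : Measure (ι → ℝ)} (h : IsJointLaw W ν)
    (h' : IsJointLaw W ν') : ν' = ν := by
  have := Fintype.ofFinite ι
  obtain ⟨h1, h2⟩ := h
  obtain ⟨h1', h2'⟩ := h'
  refine ext_of_forall_integral_eq_of_IsFiniteMeasure fun φ => ?_
  have hB : ∃ B : ℝ, ∀ y, |φ y| ≤ B := ⟨‖φ‖, fun y => φ.norm_coe_le_norm y⟩
  exact tendsto_nhds_unique (h2' φ φ.continuous hB) (h2 φ φ.continuous hB)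

/-- **The joint limiting distribution of error terms.** -/
theorem joint_of {W : ι → ℝ → ℝ} (hW : ∀ i, BM (W i)) {m : ι → ℝ → ℕ}
    (h : ∀ i, Par (fun u => (cut (W i) u : ℂ)) (cm (m i)) (V i)) :
    ∃ ν : Measure (ι → ℝ), (IsJointLaw W ν ∧ ∀ ν' : Measure (ι → ℝ), IsJointLaw W ν' → ν' = ν) ∧
      (∀ i, Integrable (fun y : ι → ℝ => y i ^ 2) ν) ∧ (∀ i, ∫ y, y i ∂ν = 0) ∧
      ∀ i j, HasSum (fun t : ℝ => (m i t : ℝ) * m j t / t ^ 2) (∫ y, y i * y j ∂ν) ∧
        Tendsto (fun X : ℝ => (∫ x in Real.exp 1..X, W i x * W j x / x) / Real.log X) atTop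
          (𝓝 (∫ y, y i * y j ∂ν)) := by
  have hm : ∀ i, AEMeasurable (cut (W i)) volume := fun i => (cut_meas (hW i)).aemeasurable
  set g : ι → ℝ → ℝ := fun i => (hm i).mk (cut (W i)) with hg
  have hgm : ∀ i, Measurable (g i) := fun i => (hm i).measurable_mk
  have hae : ∀ i, cut (W i) =ᵐ[volume] g i := fun i => (hm i).ae_eq_mk
  have hP : ∀ i, Par (fun u => (g i u : ℂ)) (cm (m i)) (V i) := fun i => (h i).congr_ae (by
    filter_upwards [hae i] with u hu
    rw [hu])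
  obtain ⟨ν, h1, h2, h3, h4, h5⟩ := joint_moments hP hgm
  have hall : ∀ᵐ u ∂(volume : Measure ℝ), ∀ i, cut (W i) u = g i u := ae_all_iff.2 hae
  have hlaw : IsJointLaw W ν := by
    refine ⟨h1, fun φ hφ hB => ?_⟩
    obtain ⟨B, hB'⟩ := hB
    refine joint_means hW hφ hB' ?_
    refine (h2 φ hφ ⟨B, hB'⟩).congr fun T => MR_congr ?_ T
    filter_upwards [hall] with u hu
    congr 1
    funext i
    exact (hu i).symm
  refine ⟨ν, ⟨hlaw, fun ν' h' => joint_unique hlaw h'⟩, h3, fun i => ?_, fun i j => ?_⟩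
  · rw [h4, cm_zero, Complex.zero_re]
  · obtain ⟨K, hK, tK⟩ := prod_mean (hW i) (hW j) (h i) (h j)
    have e : ∫ y, y i * y j ∂ν = K := by
      rw [h5]
      simp only [cm_mul]
      have h6 : HasSum (fun t : ℝ => (((m i t : ℝ) * m j t / t ^ 2 : ℝ) : ℂ)) ((K : ℝ) : ℂ) :=
        Complex.hasSum_ofReal.2 hK
      rw [h6.tsum_eq, Complex.ofReal_re]
    rw [e]
    exact ⟨hK, tK⟩

/-- linear relations: the variance of a linear combination -/
theorem joint_support {m : ι → ℝ → ℕ} {ν : Measure (ι → ℝ)}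
    (hI : ∀ i, Integrable (fun y : ι → ℝ => y i ^ 2) ν)
    (hS : ∀ i j, HasSum (fun t : ℝ => (m i t : ℝ) * m j t / t ^ 2) (∫ y, y i * y j ∂ν)) (c : ι → ℝ) :
    HasSum (fun t : ℝ => ((∑ i, c i * m i t) / t) ^ 2) (∫ y, (∑ i, c i * y i) ^ 2 ∂ν) ∧
      ((∀ᵐ y ∂ν, ∑ i, c i * y i = 0) ↔ ∀ t : ℝ, t ≠ 0 → ∑ i, c i * (m i t : ℝ) = 0) := by
  have hL : ∀ i, MemLp (fun y : ι → ℝ => y i) 2 ν := fun i =>
    (memLp_two_iff_integrable_sq (continuous_apply i).aestronglyMeasurable).2 (hI i)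
  have hij : ∀ i j, Integrable (fun y : ι → ℝ => y i * y j) ν := fun i j =>
    MemLp.integrable_mul (hL i) (hL j)
  have e : ∀ x : ι → ℝ, (∑ i, c i * x i) ^ 2 = ∑ i, ∑ j, c i * c j * (x i * x j) := by
    intro x
    rw [sq, Finset.sum_mul_sum]
    refine Finset.sum_congr rfl fun i _ => Finset.sum_congr rfl fun j _ => ?_
    ring
  have hi : ∀ i, Integrable (fun y : ι → ℝ => ∑ j, c i * c j * (y i * y j)) ν := fun i =>
    integrable_finset_sum _ fun j _ => (hij i j).const_mul _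
  have e2 : ∫ y, (∑ i, c i * y i) ^ 2 ∂ν = ∑ i, ∑ j, c i * c j * ∫ y, y i * y j ∂ν := by
    simp only [e]
    rw [integral_finset_sum _ fun i _ => hi i]
    refine Finset.sum_congr rfl fun i _ => ?_
    rw [integral_finset_sum _ fun j _ => (hij i j).const_mul _]
    refine Finset.sum_congr rfl fun j _ => ?_
    rw [integral_const_mul]
  have hsum : HasSum (fun t : ℝ => ((∑ i, c i * m i t) / t) ^ 2) (∫ y, (∑ i, c i * y i) ^ 2 ∂ν) := by
    rw [e2]
    have h1 : HasSum (fun t : ℝ => ∑ i, ∑ j, c i * c j * ((m i t : ℝ) * m j t / t ^ 2))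
        (∑ i, ∑ j, c i * c j * ∫ y, y i * y j ∂ν) :=
      hasSum_sum fun i _ => hasSum_sum fun j _ => (hS i j).mul_left _
    convert! h1 using 1
    funext t
    rw [div_pow, e (fun i => (m i t : ℝ)), Finset.sum_div]
    refine Finset.sum_congr rfl fun i _ => ?_
    rw [Finset.sum_div]
    refine Finset.sum_congr rfl fun j _ => ?_
    ring
  refine ⟨hsum, ?_⟩
  have hint : Integrable (fun y : ι → ℝ => (∑ i, c i * y i) ^ 2) ν := by
    simp only [e]
    exact integrable_finset_sum _ fun i _ => hi i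
  have h0 := integral_eq_zero_iff_of_nonneg (fun y : ι → ℝ => sq_nonneg (∑ i, c i * y i)) hint
  have h1 := sum_zero_iff hsum fun t => sq_nonneg _
  rw [← h1.trans (forall_congr' fun t => ?_), h0]
  · constructor
    · intro h
      filter_upwards [h] with y hy
      rw [hy]
      simp
    · intro h
      filter_upwards [h] with y hy
      exact pow_eq_zero_iff (two_ne_zero) |>.1 hy
  · rw [pow_eq_zero_iff two_ne_zero, div_eq_zero_iff]
    tauto

end Pool.Agent.Q5.AP
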