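import Pool.Agent.Q5.AP.RatG

/-!
# The sharp bound for the windows of a general Euler product with a completed function
-/

set_option autoImplicit false

open Filter Topology Set Complex
open Pool.Agent.Q5.SZ
open Pool.Agent.Q5.BP (mu)
open Pool.Agent.Q5.AP.G

namespace Pool.Agent.Q5.AP

variable {F Λ : ℂ → ℂ} {a : ℝ}

theorem comp_sum (H : CompOf F Λ a) (hP : ∀ s : ℂ, a < s.re → F s ≠ 0) :
    HasSum (fun t : ℝ => (multA Λ a t : ℝ) / t ^ 2) (cA Λ a) := by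
  have hmu : ∀ t : ℝ, mu (fun z => Λ (a + z)) t = multA Λ a t := Pool.Agent.Q5.BP.mu_shift Λ a
  have htz : tz (fun z => Λ (a + z)) = fun t : ℝ => (multA Λ a t : ℝ) / t ^ 2 := by
    funext t
    unfold tz
    rw [hmu]
  have hcst : (cst (fun z => Λ (a + z)) (ordA Λ a)).re = cA Λ a := by
    unfold cst cA
    have e : ∀ n : ℕ, iteratedDeriv n (fun z => Λ (a + z)) 0 = iteratedDeriv n Λ a := by
      intro n
      rw [iteratedDeriv_comp_const_add]
      simp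
    rw [e, e]
  obtain ⟨K, w, hC⟩ := H.compl hP
  obtain ⟨c, h4, h5⟩ := hC.sum fun v _ hv => by
    have := H.line hP hv
    simpa using this
  have h6 : c = cA Λ a := by rw [← hcst, h4, Complex.ofReal_re]
  rw [← h6]
  rwa [htz] at h5

theorem comp_simple (H : CompOf F Λ a) (hP : ∀ s : ℂ, a < s.re → F s ≠ 0) :
    (∀ t : ℝ, t ≠ 0 → multA Λ a t ≤ 1) ↔ Simp Λ a := by
  constructor
  · intro hm s hs h0
    have h4 : s = a + (s.im : ℂ) * I := by
      apply Complex.ext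
      · simp [H.line hP h0]
      · simp
    have h5 : s.im ≠ 0 := fun h5 => hs (by rw [h4, h5]; simp)
    have h6 := hm s.im h5
    unfold multA at h6
    rw [← h4] at h6
    rw [Pool.Agent.Q5.SZ.simple_order H.diff h0]
    have h7 : analyticOrderAt Λ s ≠ 0 := by
      rw [(H.diff.analyticAt s).analyticOrderAt_ne_zero]
      exact h0
    obtain ⟨n, hn⟩ := ENat.ne_top_iff_exists.1 (H.fin hP s)
    rw [← hn] at h6 h7 ⊢
    have h8 : n ≤ 1 := by simpa using h6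
    have h9 : n ≠ 0 := fun h => h7 (by rw [h]; rfl)
    have h10 : n = 1 := by omega
    rw [h10]
    rfl
  · intro hS t ht
    by_cases h0 : Λ (a + t * I) = 0
    · have h4 := (Pool.Agent.Q5.SZ.simple_order H.diff h0).1 (hS _ (fun h4 => ht (by
        have := congrArg Complex.im h4
        simpa using this)) h0)
      unfold multA
      rw [h4]
      exact le_rfl
    · unfold multA
      rw [((H.diff.analyticAt _).analyticOrderAt_eq_zero).2 h0]
      exact Nat.zero_le 1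

theorem comp_mult (H : CompOf F Λ a) (hF : ∀ s : ℂ, a ≤ s.re → s ≠ a → AnalyticAt ℂ F s) {t : ℝ}
    (ht : t ≠ 0) : multA F a t = multA Λ a t := by
  unfold multA
  rw [H.order hF (by simp) fun h => ht (by
    have := congrArg Complex.im h
    simpa using this)]

/-- the exceptional exponents -/
def Bad (F Λ : ℂ → ℂ) (a : ℝ) : Set ℝ :=
  {l : ℝ | (∀ s : ℂ, a < s.re → F s ≠ 0) ∧ 0 < l ∧
    ∃ t : ℝ, t ≠ 0 ∧ multA Λ a t ≠ 0 ∧ multA Λ a (t / l) ≠ 0}

theorem bad_countable (H : CompOf F Λ a) (hF : ∀ s : ℂ, a ≤ s.re → s ≠ a → AnalyticAt ℂ F s)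
    (hV : (∀ s : ℂ, a < s.re → F s ≠ 0) → ∃ V : ℝ, HasSum (fun t : ℝ => ((multA F a t : ℝ) / t) ^ 2) V) :
    (Bad F Λ a).Countable := by
  by_cases hP : ∀ s : ℂ, a < s.re → F s ≠ 0
  · obtain ⟨V, hV⟩ := hV hP
    have e : (fun t : ℝ => ((multA F a t : ℝ) / t) ^ 2) =
        fun t : ℝ => ((multA Λ a t : ℝ) / t) ^ 2 := by
      funext t
      by_cases ht : t = 0
      · rw [ht]
        simp
      · rw [comp_mult H hF ht]
    rw [e] at hV
    refine (ratios_countable (zeros_countable hV)).mono ?_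
    rintro l ⟨-, h⟩
    exact h
  · refine Set.countable_empty.mono ?_
    rintro l ⟨h, -⟩
    exact absurd h hP

/-- **The sharp bound for the windows.** -/
theorem comp_win (H : CompOf F Λ a) (hF : ∀ s : ℂ, a ≤ s.re → s ≠ a → AnalyticAt ℂ F s)
    {P : Prop} {S : ℝ → ℝ} {l : ℝ} (hl : 0 < l) (hP : P → ∀ s : ℂ, a < s.re → F s ≠ 0)
    (h1 : P → ∃ W : ℝ, HasSum (fun t : ℝ => (((multA F a t : ℝ) - multA F a (t / l)) / t) ^ 2) W ∧
      Tendsto S atTop (𝓝 W))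
    (hV : P → ∃ V : ℝ, HasSum (fun t : ℝ => ((multA F a t : ℝ) / t) ^ 2) V)
    (h2 : (∃ B : ℝ, ∀ᶠ X : ℝ in atTop, S X ≤ B) → P) :
    (∀ B : ℝ, (∀ᶠ X : ℝ in atTop, S X ≤ B) → (1 / l ^ 2 - 1) * cA Λ a ≤ B) ∧
    (l ∉ Bad F Λ a → (AtMost S ((1 + 1 / l ^ 2) * cA Λ a) ↔ P ∧ Simp Λ a) ∧
      (∀ B : ℝ, (∀ᶠ X : ℝ in atTop, S X ≤ B) → (1 + 1 / l ^ 2) * cA Λ a ≤ B) ∧
      (P → ∃ M : ℝ, HasSum (fun t : ℝ => (multA Λ a t : ℝ) * ((multA Λ a t : ℝ) - 1) / t ^ 2) M ∧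
        0 ≤ M ∧ Tendsto S atTop (𝓝 ((1 + 1 / l ^ 2) * (cA Λ a + M))))) := by
  have h1' : P → ∃ W : ℝ, HasSum (fun t : ℝ => (((multA Λ a t : ℝ) - multA Λ a (t / l)) / t) ^ 2) W ∧
      Tendsto S atTop (𝓝 W) := by
    intro h
    obtain ⟨W, hW, hT⟩ := h1 h
    refine ⟨W, ?_, hT⟩
    have e : (fun t : ℝ => (((multA F a t : ℝ) - multA F a (t / l)) / t) ^ 2) =
        fun t : ℝ => (((multA Λ a t : ℝ) - multA Λ a (t / l)) / t) ^ 2 := by
      funext t
      by_cases ht : t = 0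
      · rw [ht]
        simp
      · rw [comp_mult H hF ht, comp_mult H hF (div_ne_zero ht hl.ne')]
    rwa [e] at hW
  have hV' : P → ∃ V : ℝ, HasSum (fun t : ℝ => ((multA Λ a t : ℝ) / t) ^ 2) V := by
    intro h
    obtain ⟨V, hV⟩ := hV h
    refine ⟨V, ?_⟩
    have e : (fun t : ℝ => ((multA F a t : ℝ) / t) ^ 2) =
        fun t : ℝ => ((multA Λ a t : ℝ) / t) ^ 2 := by
      funext t
      by_cases ht : t = 0
      · rw [ht]
        simp
      · rw [comp_mult H hF ht]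
    rwa [e] at hV
  refine ⟨fun B hB => ?_, fun hbad => ?_⟩
  · have h := h2 ⟨B, hB⟩
    obtain ⟨W, hW, hT⟩ := h1' h
    have h3 := low hl (comp_sum H (hP h)) hW
    have h4 := le_of_tendsto hT hB
    calc (1 / l ^ 2 - 1) * cA Λ a = cA Λ a / l ^ 2 - cA Λ a := by ring
      _ ≤ B := h3.trans h4
  · have hg : P → ∀ t : ℝ, t ≠ 0 → multA Λ a t = 0 ∨ multA Λ a (t / l) = 0 := by
      intro h t ht
      by_contra hn
      push Not at hn
      exact hbad ⟨hP h, hl, t, ht, hn.1, hn.2⟩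
    obtain ⟨k1, k2, k3⟩ := gen_bound (P := P) (S := S) hl h1' hV' h2
      (fun h => comp_sum H (hP h)) hg
    refine ⟨?_, k2, k3⟩
    have k1' : AtMost S ((1 + 1 / l ^ 2) * cA Λ a) ↔ P ∧ ∀ t : ℝ, t ≠ 0 → multA Λ a t ≤ 1 := k1
    rw [k1']
    exact and_congr_right fun h => comp_simple H (hP h)

end Pool.Agent.Q5.AP
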